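import Pool.Agent.H433.CP.Stm

/-! # Integral coordinates are bounded by the conjugates (task CP-C2) -/

set_option autoImplicit false

open NumberField Finset

namespace Pool.Agent.H163.CP

open Pool.Agent.H433.CP NumberField.mixedEmbedding Module

open scoped Classical in
theorem norm_mixed_le {K : Type} [Field K] [NumberField K] (x : K) (R : ℝ)
    (h : ∀ σ : K →+* ℂ, ‖σ x‖ ≤ R) : ‖mixedEmbedding K x‖ ≤ R := by
  rw [norm_eq_sup'_normAtPlace]
  refine Finset.sup'_le _ _ fun w _ => ?_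
  rw [normAtPlace_apply, ← InfinitePlace.norm_embedding_eq]
  exact h _

theorem c2 : S_C2 := by
  classical
  intro K _ _
  let f : ∀ i : Free.ChooseBasisIndex ℤ (𝓞 K), mixedSpace K →L[ℝ] ℝ := fun i =>
    LinearMap.toContinuousLinearMap ((latticeBasis K).coord i)
  refine ⟨1 + ∑ i, ⌈‖f i‖⌉₊, Nat.le_add_right _ _, ?_⟩
  intro R x hx i
  have hR : 0 ≤ R := by
    obtain ⟨σ⟩ := (inferInstance : Nonempty (K →+* ℂ))
    exact (norm_nonneg _).trans (hx σ)
  have h1 := norm_mixed_le (x : K) R hx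
  have h2 : f i (mixedEmbedding K (x : K)) = ((RingOfIntegers.basis K).repr x i : ℝ) := by
    have h3 : (latticeBasis K).repr (mixedEmbedding K (x : K)) i =
        (((integralBasis K).repr (x : K) i : ℚ) : ℝ) := latticeBasis_repr_apply K (x : K) i
    have h4 := integralBasis_repr_apply K x i
    show (latticeBasis K).repr (mixedEmbedding K (x : K)) i = _
    rw [h3]
    have h5 : (integralBasis K).repr (x : K) i = (((RingOfIntegers.basis K).repr x i : ℤ) : ℚ) := h4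
    rw [h5]
    exact Rat.cast_intCast _
  rw [← h2, ← Real.norm_eq_abs]
  have h6 : ‖f i‖ ≤ ((1 + ∑ i, ⌈‖f i‖⌉₊ : ℕ) : ℝ) := by
    have h7 : ⌈‖f i‖⌉₊ ≤ ∑ i, ⌈‖f i‖⌉₊ :=
      Finset.single_le_sum (f := fun i => ⌈‖f i‖⌉₊) (fun _ _ => Nat.zero_le _) (Finset.mem_univ i)
    have h8 : ‖f i‖ ≤ (⌈‖f i‖⌉₊ : ℝ) := Nat.le_ceil _
    have h9 : (⌈‖f i‖⌉₊ : ℝ) ≤ ((1 + ∑ i, ⌈‖f i‖⌉₊ : ℕ) : ℝ) := by
      exact_mod_cast h7.trans (Nat.le_add_left _ _)
    exact h8.trans h9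
  calc ‖f i (mixedEmbedding K (x : K))‖ ≤ ‖f i‖ * ‖mixedEmbedding K (x : K)‖ := (f i).le_opNorm _
    _ ≤ ‖f i‖ * R := mul_le_mul_of_nonneg_left h1 (norm_nonneg _)
    _ ≤ _ := mul_le_mul_of_nonneg_right h6 hR

end Pool.Agent.H163.CP
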